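import Pool.Agent.Lib.MP_360cb4_gt.Target

set_option autoImplicit false

universe u

namespace Pool.Agent.Results.MP_360cb4_gt.SmythNotDetermined

open Pool.Agent.Lib.MP_360cb4_gt

/-- There are an adequate Smyth category `K` and a `K`-determined `T₀` space `X` such that some
irreducible closed subset of the Smyth power space `P_S(X)` is not `K`-determined. -/
theorem result : ∃ K : SpaceClass.{u}, FullSubcategory K ∧ Adequate K ∧ SmythCategory K ∧
    ∃ (X : Type u) (_ : TopologicalSpace X), T0Space X ∧ DetSpace K X ∧
      ∃ A : Set (PS X), IsClosed A ∧ IsIrreducible A ∧ ¬ DetSet K A :=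
  ⟨KK, KK_full, KK_adequate, KK_smyth, XX, inferInstance, XX.t0, XX.det, AA, isClosed_AA,
    irreducible_AA, not_det_AA⟩

end Pool.Agent.Results.MP_360cb4_gt.SmythNotDetermined
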